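import Pool.Agent.Lib.MP_8027ba_an.Sat

/-!
Every nonempty compact perfect subset of the line is homeomorphic to a set of sums
`{x_0 + x_1 + ... : x_i in K_i}` of shrinking compact sets.
-/

namespace Pool.Agent.Results.MP_8027ba_an.AllPerfect

open Set Filter Topology Pool.Agent.Lib.MP_8027ba_an

/-- The standing hypotheses on the sequence of compact sets. -/
structure Admissible (K : ℕ → Set ℝ) : Prop where
  compact : ∀ i, IsCompact (K i)
  zero_mem : ∀ i, (0 : ℝ) ∈ K i
  nonneg : ∀ i, K i ⊆ Set.Ici 0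
  diam_pos : ∀ i, 0 < Metric.diam (K i)
  diam_tendsto : Tendsto (fun i => Metric.diam (K i)) atTop (𝓝 0)
  diam_summable : Summable (fun i => Metric.diam (K i))

/-- The set `S` of all sums `x_0 + x_1 + ...` with `x_i` in `K i`. -/
def sums (K : ℕ → Set ℝ) : Set ℝ := {s | ∃ x : ℕ → ℝ, (∀ i, x i ∈ K i) ∧ HasSum x s}

theorem good_of_perfect {X : Set ℝ} (hne : X.Nonempty) (hc : IsCompact X) (hp : Perfect X) :
    Good X := by
  refine ⟨hc, hne, fun x hx ε hε => ?_⟩
  have h := accPt_iff_nhds.mp (hp.acc x hx) (Metric.ball x ε) (Metric.ball_mem_nhds x hε)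
  obtain ⟨y, ⟨hy1, hy2⟩, hne⟩ := h
  exact ⟨y, hy2, hne, by rw [← Real.dist_eq]; exact hy1⟩

/-- the first summand -/
def F (X : Set ℝ) : Set ℝ := {f | ∀ t ∈ T, f + t ∈ Phi X '' X}

theorem F_subset {X : Set ℝ} : F X ⊆ Phi X '' X := fun f hf => by
  simpa using hf 0 zero_mem_T

theorem F_nonneg {X : Set ℝ} : F X ⊆ Set.Ici 0 := fun f hf => by
  obtain ⟨x, -, hx⟩ := F_subset hf
  rw [mem_Ici, ← hx]; exact Phi_nonneg _ _

theorem F_compact {X : Set ℝ} (hX : Good X) : IsCompact (F X) := by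
  have hA := isCompact_image hX
  refine hA.of_isClosed_subset ?_ F_subset
  have : F X = ⋂ t ∈ T, (fun f => f + t) ⁻¹' (Phi X '' X) := by
    ext f; simp [F]
  rw [this]
  exact isClosed_biInter (fun t _ => hA.isClosed.preimage (continuous_add_const t))

theorem zero_mem_F {X : Set ℝ} (hX : Good X) : (0 : ℝ) ∈ F X := by
  obtain ⟨f, hf, hft⟩ := sat hX (y := 0) ⟨sInf X, hX.inf_mem, Phi_inf hX⟩
  have h1 : 0 ≤ f := F_nonneg hft
  have h2 := (T_bounds hf).1
  have h3 : f = 0 := by linarith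
  subst h3
  exact hft

theorem exists_mem_F {X : Set ℝ} (hX : Good X) : ∃ f ∈ F X, 0 < f := by
  obtain ⟨f, hf, hft⟩ := sat hX (y := 1) ⟨sSup X, hX.sup_mem, Phi_sup hX⟩
  refine ⟨f, hft, ?_⟩
  have h2 := (T_bounds hf).2
  linarith

/-- the sequence of compact sets -/
noncomputable def K (X : Set ℝ) : ℕ → Set ℝ
  | 0 => F X
  | j + 1 => dig j

theorem dig_diam (j : ℕ) : Metric.diam (dig j) = 2 * (1/20)^(j+1) := by
  unfold dig
  rw [Metric.diam_pair, Real.dist_eq, zero_sub, abs_neg, abs_of_nonneg (by positivity)]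

theorem admissible_K {X : Set ℝ} (hX : Good X) : Admissible (K X) := by
  have hsum : Summable (fun i => Metric.diam (K X i)) := by
    rw [← summable_nat_add_iff 1]
    have : (fun n => Metric.diam (K X (n + 1))) = fun j : ℕ => (2:ℝ) * (1/20)^(j+1) := by
      funext j; exact dig_diam j
    rw [this]
    exact hasSum_geo.summable
  refine ⟨?_, ?_, ?_, ?_, hsum.tendsto_atTop_zero, hsum⟩
  · rintro (_ | j)
    · exact F_compact hX
    · exact (Set.toFinite ({0, 2 * (1/20)^(j+1)} : Set ℝ)).isCompact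
  · rintro (_ | j)
    · exact zero_mem_F hX
    · exact Or.inl rfl
  · rintro (_ | j)
    · exact F_nonneg
    · exact fun x hx => (dig_bounds hx).1
  · rintro (_ | j)
    · obtain ⟨f, hf, hpos⟩ := exists_mem_F hX
      have := Metric.dist_le_diam_of_mem (F_compact hX).isBounded hf (zero_mem_F hX)
      rw [Real.dist_eq, sub_zero, abs_of_pos hpos] at this
      exact hpos.trans_le this
    · show 0 < Metric.diam (dig j)
      rw [dig_diam]; positivity

theorem sums_K {X : Set ℝ} (hX : Good X) : sums (K X) = Phi X '' X := by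
  ext s
  constructor
  · rintro ⟨x, hx, hs⟩
    have hs' := (hasSum_nat_add_iff' 1).mpr hs
    simp only [Finset.range_one, Finset.sum_singleton] at hs'
    have h0 : x 0 ∈ F X := hx 0
    have ht : s - x 0 ∈ T := ⟨fun j => x (j + 1), fun j => hx (j + 1), hs'⟩
    have := h0 _ ht
    rwa [add_sub_cancel] at this
  · intro hs
    obtain ⟨f, ⟨e, he, hes⟩, hft⟩ := sat hX hs
    refine ⟨fun n => Nat.casesOn n f e, ?_, ?_⟩
    · rintro (_ | j)
      · exact hft
      · exact he j
    · rw [← hasSum_nat_add_iff' 1]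
      simp only [Finset.range_one, Finset.sum_singleton]
      exact hes

theorem exists_K (X : Set ℝ) (hne : X.Nonempty) (hc : IsCompact X) (hp : Perfect X) :
    ∃ K : ℕ → Set ℝ, Admissible K ∧ Nonempty (X ≃ₜ sums K) := by
  have hX := good_of_perfect hne hc hp
  refine ⟨K X, admissible_K hX, ?_⟩
  rw [sums_K hX]
  have : CompactSpace X := isCompact_iff_compactSpace.mp hc
  have hcont : Continuous (Equiv.Set.imageOfInjOn (Phi X) X (injOn_Phi hX)) :=
    Continuous.subtype_mk (continuousOn_iff_continuous_domRestrict.mp (continuousOn_Phi hX)) _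
  exact ⟨hcont.homeoOfEquivCompactToT2⟩

section converse

variable {K : ℕ → Set ℝ} (hK : Admissible K)
include hK

theorem elt_bounds {i : ℕ} {x : ℝ} (hx : x ∈ K i) : 0 ≤ x ∧ x ≤ Metric.diam (K i) := by
  have h0 : 0 ≤ x := hK.nonneg i hx
  refine ⟨h0, ?_⟩
  have := Metric.dist_le_diam_of_mem (hK.compact i).isBounded hx (hK.zero_mem i)
  rwa [Real.dist_eq, sub_zero, abs_of_nonneg h0] at this

theorem summable_elt {x : ℕ → ℝ} (hx : ∀ i, x i ∈ K i) : Summable x :=
  Summable.of_nonneg_of_le (fun i => (elt_bounds hK (hx i)).1)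
    (fun i => (elt_bounds hK (hx i)).2) hK.diam_summable

theorem isCompact_sums : IsCompact (sums K) := by
  have h1 : IsCompact (Set.pi univ K) := isCompact_univ_pi hK.compact
  have h2 : ContinuousOn (fun e : ℕ → ℝ => ∑' j, e j) (Set.pi univ K) := by
    refine continuousOn_tsum (fun j => (continuous_apply j).continuousOn) hK.diam_summable ?_
    intro j e he
    have := elt_bounds hK (he j (mem_univ _))
    rw [Real.norm_eq_abs, abs_of_nonneg this.1]
    exact this.2
  have h3 : sums K = (fun e : ℕ → ℝ => ∑' j, e j) '' (Set.pi univ K) := by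
    ext t
    constructor
    · rintro ⟨e, he, hs⟩
      exact ⟨e, fun j _ => he j, hs.tsum_eq⟩
    · rintro ⟨e, he, rfl⟩
      exact ⟨e, fun j => he j (mem_univ _), (summable_elt hK (fun j => he j (mem_univ _))).hasSum⟩
  rw [h3]
  exact h1.image_of_continuousOn h2

theorem zero_mem_sums : (0 : ℝ) ∈ sums K := ⟨fun _ => 0, hK.zero_mem, hasSum_zero⟩

theorem sums_acc {s : ℝ} (hs : s ∈ sums K) {ε : ℝ} (hε : 0 < ε) :
    ∃ s' ∈ sums K, s' ≠ s ∧ |s' - s| < ε := by
  obtain ⟨x, hx, hsum⟩ := hs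
  obtain ⟨i, hi⟩ := ((tendsto_order.mp hK.diam_tendsto).2 ε hε).exists
  have hex : ∃ y ∈ K i, y ≠ x i := by
    by_contra hcon
    push Not at hcon
    have hsub : (K i).Subsingleton := fun a ha b hb => (hcon a ha).trans (hcon b hb).symm
    exact absurd (Metric.diam_subsingleton hsub) (hK.diam_pos i).ne'
  obtain ⟨y, hy, hyx⟩ := hex
  refine ⟨y - x i + s, ⟨Function.update x i y, ?_, hsum.update i y⟩, ?_, ?_⟩
  · intro j
    by_cases h : j = i
    · subst h; rw [Function.update_self]; exact hy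
    · rw [Function.update_of_ne h]; exact hx j
  · intro h
    exact hyx (by linarith)
  · have h1 := elt_bounds hK hy
    have h2 := elt_bounds hK (hx i)
    rw [abs_lt]
    constructor <;> linarith

end converse

/-- For `X ⊆ ℝ`: `X` is homeomorphic to the set of sums of an admissible sequence if and only if
`X` is nonempty, compact and perfect. -/
theorem result (X : Set ℝ) :
    (X.Nonempty ∧ IsCompact X ∧ Perfect X) ↔
      ∃ K : ℕ → Set ℝ, Admissible K ∧ Nonempty (X ≃ₜ sums K) := by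
  constructor
  · rintro ⟨h1, h2, h3⟩
    exact exists_K X h1 h2 h3
  · rintro ⟨K, hK, ⟨e⟩⟩
    have : CompactSpace (sums K) := isCompact_iff_compactSpace.mp (isCompact_sums hK)
    have hc : CompactSpace X := e.symm.compactSpace
    have hcX : IsCompact X := isCompact_iff_compactSpace.mpr hc
    refine ⟨⟨_, (e.symm ⟨0, zero_mem_sums hK⟩).2⟩, hcX, ⟨hcX.isClosed, ?_⟩⟩
    intro x hx
    rw [accPt_iff_nhds]
    intro W hW
    have hcont : Continuous (fun s : sums K => ((e.symm s : X) : ℝ)) :=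
      continuous_subtype_val.comp e.symm.continuous
    have hWs : (fun s : sums K => ((e.symm s : X) : ℝ)) ⁻¹' W ∈ 𝓝 (e ⟨x, hx⟩) := by
      apply hcont.continuousAt.preimage_mem_nhds
      simpa using hW
    obtain ⟨ε, hε, hball⟩ := Metric.mem_nhds_iff.mp hWs
    obtain ⟨s', hs', hne, hd⟩ := sums_acc hK (e ⟨x, hx⟩).2 hε
    have hmem : (⟨s', hs'⟩ : sums K) ∈ Metric.ball (e ⟨x, hx⟩) ε := by
      rw [Metric.mem_ball, Subtype.dist_eq, Real.dist_eq]; exact hd
    refine ⟨e.symm ⟨s', hs'⟩, ⟨hball hmem, (e.symm ⟨s', hs'⟩).2⟩, ?_⟩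
    · intro h
      apply hne
      have h2 : e.symm ⟨s', hs'⟩ = ⟨x, hx⟩ := Subtype.ext h
      rw [e.symm_apply_eq] at h2
      exact congrArg Subtype.val h2

end Pool.Agent.Results.MP_8027ba_an.AllPerfect
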